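import Pool.Agent.Y402.PL.Stm

/-!
The analytic step `S_ANA`.
-/

set_option autoImplicit false

namespace Pool.Agent.Y277.PL

open Pool.Agent.Y402.PL MeasureTheory Set Filter Topology

lemma one_sub_exp_le (x : ℝ) : 1 - Real.exp (-x) ≤ x := by
  have := Real.add_one_le_exp (-x)
  linarith

lemma one_sub_exp_nonneg {x : ℝ} (hx : 0 ≤ x) : 0 ≤ 1 - Real.exp (-x) := by
  have : Real.exp (-x) ≤ 1 := Real.exp_le_one_iff.mpr (by linarith)
  linarith

lemma f2_meas (A θ : ℝ) : Measurable (fun y : ℝ => (1 - Real.exp (-(A * y))) * y ^ (θ - 2)) := by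
  fun_prop

lemma f2_int (A θ : ℝ) (hA : 0 < A) (h0 : 0 < θ) (h1 : θ < 1) :
    IntegrableOn (fun y : ℝ => (1 - Real.exp (-(A * y))) * y ^ (θ - 2)) (Ioi 0) := by
  have hs : Ioi (0 : ℝ) = Ioc 0 1 ∪ Ioi 1 := by
    rw [Ioc_union_Ioi_eq_Ioi zero_le_one]
  rw [hs]
  apply IntegrableOn.union
  · have hI : IntegrableOn (fun y : ℝ => A * y ^ (θ - 1)) (Ioc 0 1) := by
      have := intervalIntegral.intervalIntegrable_rpow' (a := 0) (b := 1) (r := θ - 1) (by linarith)
      rw [intervalIntegrable_iff_integrableOn_Ioc_of_le zero_le_one] at this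
      exact this.const_mul A
    refine Integrable.mono' hI (f2_meas A θ).aestronglyMeasurable ?_
    refine (ae_restrict_iff' measurableSet_Ioc).mpr (Eventually.of_forall ?_)
    intro y hy
    have hy0 : 0 < y := hy.1
    have hAy : 0 ≤ A * y := by positivity
    rw [Real.norm_of_nonneg (mul_nonneg (one_sub_exp_nonneg hAy) (Real.rpow_nonneg hy0.le _))]
    calc (1 - Real.exp (-(A * y))) * y ^ (θ - 2) ≤ (A * y) * y ^ (θ - 2) :=
          mul_le_mul_of_nonneg_right (one_sub_exp_le _) (Real.rpow_nonneg hy0.le _)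
      _ = A * y ^ (θ - 1) := by
          have : y ^ (θ - 1) = y * y ^ (θ - 2) := by
            conv_rhs => rw [← Real.rpow_one y, ← Real.rpow_mul hy0.le, one_mul,
              ← Real.rpow_add hy0]
            congr 1
            ring
          rw [this]
          ring
  · have hI : IntegrableOn (fun y : ℝ => y ^ (θ - 2)) (Ioi 1) :=
      integrableOn_Ioi_rpow_of_lt (by linarith) one_pos
    refine Integrable.mono' hI (f2_meas A θ).aestronglyMeasurable ?_
    refine (ae_restrict_iff' measurableSet_Ioi).mpr (Eventually.of_forall ?_)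
    intro y hy
    have hy0 : 0 < y := lt_trans one_pos hy
    have hAy : 0 ≤ A * y := by positivity
    rw [Real.norm_of_nonneg (mul_nonneg (one_sub_exp_nonneg hAy) (Real.rpow_nonneg hy0.le _))]
    have h2 : 1 - Real.exp (-(A * y)) ≤ 1 := by
      have := Real.exp_pos (-(A * y))
      linarith
    calc (1 - Real.exp (-(A * y))) * y ^ (θ - 2) ≤ 1 * y ^ (θ - 2) :=
          mul_le_mul_of_nonneg_right h2 (Real.rpow_nonneg hy0.le _)
      _ = y ^ (θ - 2) := one_mul _

lemma f1_int (A θ : ℝ) (hA : 0 < A) (h0 : 0 < θ) :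
    IntegrableOn (fun y : ℝ => y ^ (θ - 1) * Real.exp (-(A * y))) (Ioi 0) := by
  have := integrableOn_rpow_mul_exp_neg_mul_rpow (p := 1) (s := θ - 1) (b := A) (by linarith)
    one_pos hA
  refine this.congr_fun (fun y _ => ?_) measurableSet_Ioi
  simp only [Real.rpow_one, neg_mul]

lemma int_f2 (A θ : ℝ) (hA : 0 < A) (h0 : 0 < θ) (h1 : θ < 1) :
    ∫ y in Ioi (0 : ℝ), (1 - Real.exp (-(A * y))) * y ^ (θ - 2)
      = A / (1 - θ) * ((1 / A) ^ θ * Real.Gamma θ) := by
  set G : ℝ → ℝ := fun y => (1 - Real.exp (-(A * y))) * y ^ (θ - 1) / (1 - θ) with hG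
  have h1' : 0 < 1 - θ := by linarith
  have hder : ∀ y ∈ Ioi (0 : ℝ), HasDerivAt G
      (A / (1 - θ) * (y ^ (θ - 1) * Real.exp (-(A * y)))
        - (1 - Real.exp (-(A * y))) * y ^ (θ - 2)) y := by
    intro y hy
    have hy0 : 0 < y := hy
    have d1 : HasDerivAt (fun y : ℝ => 1 - Real.exp (-(A * y))) (A * Real.exp (-(A * y))) y := by
      have e1 : HasDerivAt (fun y : ℝ => -(A * y)) (-(A * 1)) y :=
        ((hasDerivAt_id y).const_mul A).neg
      have e2 := (e1.exp).const_sub 1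
      exact e2.congr_deriv (by ring)
    have d2 : HasDerivAt (fun y : ℝ => y ^ (θ - 1)) ((θ - 1) * y ^ (θ - 1 - 1)) y :=
      Real.hasDerivAt_rpow_const (Or.inl hy0.ne')
    have d3 : HasDerivAt G _ y := (d1.mul d2).div_const (1 - θ)
    have e3 : θ - 1 - 1 = θ - 2 := by ring
    refine d3.congr_deriv ?_
    rw [e3]
    field_simp
    ring
  have hG0 : G 0 = 0 := by simp [hG]
  have hbound : ∀ y : ℝ, 0 < y → |G y| ≤ A * y ^ θ / (1 - θ) := by
    intro y hy0
    have hAy : 0 ≤ A * y := by positivity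
    have hn : 0 ≤ G y := by
      simp only [hG]
      exact div_nonneg (mul_nonneg (one_sub_exp_nonneg hAy) (Real.rpow_nonneg hy0.le _)) h1'.le
    rw [abs_of_nonneg hn]
    simp only [hG]
    apply div_le_div_of_nonneg_right _ h1'.le
    calc (1 - Real.exp (-(A * y))) * y ^ (θ - 1) ≤ (A * y) * y ^ (θ - 1) :=
          mul_le_mul_of_nonneg_right (one_sub_exp_le _) (Real.rpow_nonneg hy0.le _)
      _ = A * y ^ θ := by
          have : y ^ θ = y * y ^ (θ - 1) := by
            conv_rhs => rw [← Real.rpow_one y, ← Real.rpow_mul hy0.le, one_mul,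
              ← Real.rpow_add hy0]
            congr 1
            ring
          rw [this]
          ring
  have hcont : ContinuousWithinAt G (Ici 0) 0 := by
    rw [ContinuousWithinAt, hG0]
    have hlim : Tendsto (fun y : ℝ => A * y ^ θ / (1 - θ)) (𝓝[≥] 0) (𝓝 0) := by
      have hc : ContinuousAt (fun y : ℝ => A * y ^ θ / (1 - θ)) 0 := by
        have := Real.continuousAt_rpow_const 0 θ (Or.inr h0.le)
        exact (this.const_mul A).div_const _
      have h2 := hc.tendsto
      simp only [Real.zero_rpow h0.ne', mul_zero, zero_div] at h2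
      exact h2.mono_left nhdsWithin_le_nhds
    rw [tendsto_zero_iff_abs_tendsto_zero]
    refine squeeze_zero' (Eventually.of_forall fun y => abs_nonneg _) ?_ hlim
    filter_upwards [self_mem_nhdsWithin] with y hy
    rcases eq_or_lt_of_le (show (0 : ℝ) ≤ y from hy) with h | h
    · rw [← h]
      simp [hG0, Real.zero_rpow h0.ne']
    · exact hbound y h
  have htop : Tendsto G atTop (𝓝 0) := by
    have hlim : Tendsto (fun y : ℝ => y ^ (-(1 - θ)) / (1 - θ)) atTop (𝓝 0) := by
      have := (tendsto_rpow_neg_atTop h1').div_const (1 - θ)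
      simpa using this
    rw [tendsto_zero_iff_abs_tendsto_zero]
    refine squeeze_zero' (Eventually.of_forall fun y => abs_nonneg _) ?_ hlim
    filter_upwards [eventually_gt_atTop (0 : ℝ)] with y hy0
    have hAy : 0 ≤ A * y := by positivity
    have hn : 0 ≤ G y := by
      simp only [hG]
      exact div_nonneg (mul_nonneg (one_sub_exp_nonneg hAy) (Real.rpow_nonneg hy0.le _)) h1'.le
    rw [Function.comp_apply, abs_of_nonneg hn]
    simp only [hG]
    apply div_le_div_of_nonneg_right _ h1'.le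
    have h2 : 1 - Real.exp (-(A * y)) ≤ 1 := by
      have := Real.exp_pos (-(A * y))
      linarith
    have e4 : -(1 - θ) = θ - 1 := by ring
    rw [e4]
    calc (1 - Real.exp (-(A * y))) * y ^ (θ - 1) ≤ 1 * y ^ (θ - 1) :=
          mul_le_mul_of_nonneg_right h2 (Real.rpow_nonneg hy0.le _)
      _ = y ^ (θ - 1) := one_mul _
  have i1 : IntegrableOn (fun y : ℝ => A / (1 - θ) * (y ^ (θ - 1) * Real.exp (-(A * y))))
      (Ioi 0) := (f1_int A θ hA h0).const_mul _
  have i2 := f2_int A θ hA h0 h1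
  have hF := integral_Ioi_of_hasDerivAt_of_tendsto hcont hder (i1.sub i2) htop
  rw [integral_sub i1 i2, hG0, integral_const_mul,
    Real.integral_rpow_mul_exp_neg_mul_Ioi h0 hA] at hF
  linarith

/-- The integral of the left-hand side. -/
lemma L2 (A : ℝ) (k : ℕ) (hA : 0 < A) (hk : 2 ≤ k) :
    IntegrableOn (fun κ : ℝ => (1 - Real.exp (-(A * κ ^ k))) / (A * κ ^ k)) (Ioi 0) ∧
    ∫ κ in Ioi (0 : ℝ), (1 - Real.exp (-(A * κ ^ k))) / (A * κ ^ k)
      = (1 / A) ^ (1 / (k : ℝ)) * Real.Gamma (1 + 1 / (k : ℝ)) * (k / (k - 1)) := by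
  have hk0 : (0 : ℝ) < k := by
    have : 0 < k := by omega
    exact_mod_cast this
  have hk2 : (2 : ℝ) ≤ k := by exact_mod_cast hk
  set θ : ℝ := 1 / (k : ℝ) with hθ
  have h0 : 0 < θ := by positivity
  have h1 : θ < 1 := by
    rw [hθ, div_lt_one hk0]
    linarith
  have hkθ : (k : ℝ) * θ = 1 := by
    rw [hθ]
    field_simp
  set g : ℝ → ℝ := fun y => θ / A * ((1 - Real.exp (-(A * y))) * y ^ (θ - 2)) with hg
  have hpt : ∀ κ ∈ Ioi (0 : ℝ), (|(k : ℝ)| * κ ^ ((k : ℝ) - 1)) • g (κ ^ (k : ℝ))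
      = (1 - Real.exp (-(A * κ ^ k))) / (A * κ ^ k) := by
    intro κ hκ
    have hκ0 : 0 < κ := hκ
    rw [abs_of_pos hk0, smul_eq_mul]
    simp only [hg]
    rw [← Real.rpow_mul hκ0.le, ← Real.rpow_natCast κ k]
    have e1 : κ ^ ((k : ℝ) - 1) * κ ^ ((k : ℝ) * (θ - 2)) = (κ ^ (k : ℝ))⁻¹ := by
      rw [← Real.rpow_add hκ0, ← Real.rpow_neg hκ0.le]
      congr 1
      have : (k : ℝ) * (θ - 2) = 1 - 2 * k := by
        rw [mul_sub, hkθ]
        ring
      rw [this]
      ring
    calc (k : ℝ) * κ ^ ((k : ℝ) - 1)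
          * (θ / A * ((1 - Real.exp (-(A * κ ^ (k : ℝ)))) * κ ^ ((k : ℝ) * (θ - 2))))
        = (k * θ) * ((1 - Real.exp (-(A * κ ^ (k : ℝ)))) / A)
          * (κ ^ ((k : ℝ) - 1) * κ ^ ((k : ℝ) * (θ - 2))) := by ring
      _ = (1 - Real.exp (-(A * κ ^ (k : ℝ)))) / (A * κ ^ (k : ℝ)) := by
          rw [hkθ, e1]
          have hp : 0 < κ ^ (k : ℝ) := Real.rpow_pos_of_pos hκ0 _
          field_simp
  have hgi : IntegrableOn g (Ioi 0) := (f2_int A θ hA h0 h1).const_mul _
  constructor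
  · have := (integrableOn_Ioi_comp_rpow_iff g hk0.ne').mpr hgi
    exact this.congr_fun hpt measurableSet_Ioi
  · rw [← setIntegral_congr_fun measurableSet_Ioi hpt, integral_comp_rpow_Ioi g hk0.ne']
    simp only [hg]
    rw [integral_const_mul, int_f2 A θ hA h0 h1]
    have hG : Real.Gamma (1 + θ) = θ * Real.Gamma θ := by
      rw [add_comm, Real.Gamma_add_one h0.ne']
    rw [hG]
    have h3 : (k : ℝ) / (k - 1) = 1 / (1 - θ) := by
      rw [div_eq_div_iff (by linarith) (by linarith)]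
      rw [mul_sub, hkθ]
      ring
    rw [h3]
    have h4 : (1 - θ) ≠ 0 := by linarith
    field_simp

/-- The integral of one summand of the right-hand side. -/
lemma L1 (c : ℝ) (k : ℕ) (hc : 0 ≤ c) (hk : 2 ≤ k) :
    IntegrableOn (fun κ : ℝ => min ((c / κ) ^ k) 1) (Ioi 0) ∧
    ∫ κ in Ioi (0 : ℝ), min ((c / κ) ^ k) 1 = c * (k / (k - 1)) := by
  have hk2 : (2 : ℝ) ≤ k := by exact_mod_cast hk
  rcases eq_or_lt_of_le hc with h | h
  · subst h
    have : ∀ κ ∈ Ioi (0 : ℝ), (0 : ℝ) = min (((0 : ℝ) / κ) ^ k) 1 := by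
      intro κ _
      rw [zero_div, zero_pow (by omega), min_eq_left zero_le_one]
    constructor
    · exact (integrableOn_zero (μ := volume)).congr_fun this measurableSet_Ioi
    · rw [← setIntegral_congr_fun measurableSet_Ioi this]
      simp
  · have e1 : ∀ κ ∈ Ioc (0 : ℝ) c, (1 : ℝ) = min ((c / κ) ^ k) 1 := by
      intro κ hκ
      rw [min_eq_right]
      apply one_le_pow₀
      rw [one_le_div hκ.1]
      exact hκ.2
    have e2 : ∀ κ ∈ Ioi c, c ^ k * κ ^ (-(k : ℝ)) = min ((c / κ) ^ k) 1 := by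
      intro κ hκ
      have hκ0 : 0 < κ := lt_trans h hκ
      rw [min_eq_left, Real.rpow_neg hκ0.le, Real.rpow_natCast, div_pow]
      · rfl
      · apply pow_le_one₀ (by positivity)
        rw [div_le_one hκ0]
        exact hκ.le
    have i1 : IntegrableOn (fun κ : ℝ => min ((c / κ) ^ k) 1) (Ioc 0 c) := by
      have : IntegrableOn (fun _ : ℝ => (1 : ℝ)) (Ioc 0 c) := by
        simp
      exact this.congr_fun e1 measurableSet_Ioc
    have i2 : IntegrableOn (fun κ : ℝ => min ((c / κ) ^ k) 1) (Ioi c) := by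
      have := (integrableOn_Ioi_rpow_of_lt (a := -(k : ℝ)) (by linarith) h).const_mul (c ^ k)
      exact IntegrableOn.congr_fun this e2 measurableSet_Ioi
    have hs : Ioi (0 : ℝ) = Ioc 0 c ∪ Ioi c := by
      rw [Ioc_union_Ioi_eq_Ioi hc]
    constructor
    · rw [hs]
      exact i1.union i2
    · rw [hs, setIntegral_union (Ioc_disjoint_Ioi le_rfl) measurableSet_Ioi i1 i2,
        ← setIntegral_congr_fun measurableSet_Ioc e1,
        ← setIntegral_congr_fun measurableSet_Ioi e2, integral_const_mul,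
        integral_Ioi_rpow_of_lt (by linarith) h]
      simp only [integral_const, smul_eq_mul, mul_one]
      have e3 : (volume.restrict (Ioc 0 c)).real univ = c := by
        simp [hc]
      rw [e3]
      have e4 : c ^ (-(k : ℝ) + 1) = c * (c ^ k)⁻¹ := by
        rw [Real.rpow_add h, Real.rpow_one, Real.rpow_neg hc, Real.rpow_natCast]
        ring
      rw [e4]
      have e5 : c ^ k ≠ 0 := by positivity
      have e6 : -(k : ℝ) + 1 ≠ 0 := by
        intro h7
        linarith
      have e7 : (k : ℝ) - 1 ≠ 0 := by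
        intro h7
        linarith
      have e8 : -(k : ℝ) + 1 = -((k : ℝ) - 1) := by ring
      rw [e8]
      field_simp
      ring

theorem mainANA : S_ANA := by
  intro k r a K α β V hk hα hβ hV ha hK hyp
  have hk2 : (2 : ℝ) ≤ k := by exact_mod_cast hk
  have hA : 0 < α / β := by positivity
  obtain ⟨iL, eL⟩ := L2 (α / β) k hA hk
  have hR : ∀ j ∈ Finset.range r, IntegrableOn (fun κ : ℝ => a j * min ((K j / κ) ^ k) 1)
      (Ioi 0) := by
    intro j hj
    exact (L1 (K j) k (hK j (Finset.mem_range.mp hj)) hk).1.const_mul _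
  have hmono : ∫ κ in Ioi (0 : ℝ),
      V * α * ((1 - Real.exp (-(α / β * κ ^ k))) / (α / β * κ ^ k))
      ≤ ∫ κ in Ioi (0 : ℝ), ∑ j ∈ Finset.range r, a j * min ((K j / κ) ^ k) 1 := by
    apply setIntegral_mono_on (iL.const_mul _) (integrable_finsetSum _ hR) measurableSet_Ioi
    intro κ hκ
    have := hyp κ (α * κ ^ k / β) hκ rfl
    have e : α / β * κ ^ k = α * κ ^ k / β := by ring
    rw [e]
    exact this
  rw [integral_const_mul, eL, integral_finsetSum _ hR] at hmono
  have e1 : ∑ j ∈ Finset.range r, ∫ κ in Ioi (0 : ℝ), a j * min ((K j / κ) ^ k) 1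
      = (∑ j ∈ Finset.range r, K j * a j) * (k / (k - 1)) := by
    rw [Finset.sum_mul]
    apply Finset.sum_congr rfl
    intro j hj
    rw [integral_const_mul, (L1 (K j) k (hK j (Finset.mem_range.mp hj)) hk).2]
    ring
  rw [e1] at hmono
  have hq : (0 : ℝ) < k / (k - 1) := by
    apply div_pos <;> linarith
  have e2 : (1 / (α / β)) ^ (1 / (k : ℝ)) = (β / α) ^ (1 / (k : ℝ)) := by
    congr 1
    field_simp
  have e3 : α * (β / α) ^ (1 / (k : ℝ)) = α ^ (1 - 1 / (k : ℝ)) * β ^ (1 / (k : ℝ)) := by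
    rw [Real.div_rpow hβ.le hα.le, Real.rpow_sub hα, Real.rpow_one]
    ring
  rw [e2] at hmono
  have e4 : V * α * ((β / α) ^ (1 / (k : ℝ)) * Real.Gamma (1 + 1 / (k : ℝ)) * (k / (k - 1)))
      = (Real.Gamma (1 + 1 / (k : ℝ)) * (α * (β / α) ^ (1 / (k : ℝ))) * V) * (k / (k - 1)) := by
    ring
  rw [e4, e3] at hmono
  exact le_of_mul_le_mul_right hmono hq

end Pool.Agent.Y277.PL
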