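import Pool.Agent.Y402.PL.Stm

/-!
The hyperbola bound `S_AREA`.
-/

set_option autoImplicit false

namespace Pool.Agent.Y277.PL

open Pool.Agent.Y402.PL

lemma sum_min_le (H : ℝ) (hH : 0 < H) :
    ∀ (n : ℕ) (ρ : ℝ), 0 < ρ → ρ ≤ ((n : ℝ) + 1) * H →
      ∑ x ∈ Finset.range (n + 1), min H (ρ / ((x : ℝ) + 1))
        ≤ ρ * (1 + Real.log (((n : ℝ) + 1) * H / ρ)) := by
  intro n
  induction n with
  | zero =>
    intro ρ hρ h
    simp only [Nat.cast_zero, zero_add, one_mul] at h
    rw [Finset.sum_range_one]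
    simp only [Nat.cast_zero, zero_add, div_one, one_mul]
    have h1 : 1 ≤ H / ρ := by rwa [one_le_div hρ]
    have h2 : 0 ≤ Real.log (H / ρ) := Real.log_nonneg h1
    calc min H ρ ≤ ρ := min_le_right _ _
      _ ≤ ρ * (1 + Real.log (H / ρ)) := by nlinarith
  | succ n ih =>
    intro ρ hρ h
    rw [Finset.sum_range_succ]
    push_cast at h ⊢
    have hn1 : (0 : ℝ) < (n : ℝ) + 1 := by positivity
    have hn2 : (0 : ℝ) < (n : ℝ) + 1 + 1 := by positivity
    rcases le_or_gt ρ (((n : ℝ) + 1) * H) with hc | hc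
    · have h1 := ih ρ hρ hc
      have h2 : min H (ρ / ((n : ℝ) + 1 + 1)) ≤ ρ / ((n : ℝ) + 1 + 1) := min_le_right _ _
      have h3 : Real.log (((n : ℝ) + 1 + 1) * H / ρ)
          = Real.log (((n : ℝ) + 1) * H / ρ) + Real.log (((n : ℝ) + 1 + 1) / ((n : ℝ) + 1)) := by
        rw [← Real.log_mul (by positivity) (by positivity)]
        congr 1
        field_simp
      have h4 : 1 - (((n : ℝ) + 1 + 1) / ((n : ℝ) + 1))⁻¹
          ≤ Real.log (((n : ℝ) + 1 + 1) / ((n : ℝ) + 1)) :=
        Real.one_sub_inv_le_log_of_pos (by positivity)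
      have h5 : 1 - (((n : ℝ) + 1 + 1) / ((n : ℝ) + 1))⁻¹ = 1 / ((n : ℝ) + 1 + 1) := by
        field_simp
        ring
      rw [h5] at h4
      have h6 : ρ / ((n : ℝ) + 1 + 1) = ρ * (1 / ((n : ℝ) + 1 + 1)) := by ring
      rw [h3]
      nlinarith [mul_le_mul_of_nonneg_left h4 hρ.le]
    · have h1 : ∑ x ∈ Finset.range (n + 1), min H (ρ / ((x : ℝ) + 1)) ≤ ((n : ℝ) + 1) * H := by
        calc ∑ x ∈ Finset.range (n + 1), min H (ρ / ((x : ℝ) + 1))
            ≤ ∑ x ∈ Finset.range (n + 1), H := Finset.sum_le_sum fun _ _ => min_le_left _ _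
          _ = ((n : ℝ) + 1) * H := by
            rw [Finset.sum_const, Finset.card_range, nsmul_eq_mul]; push_cast; ring
      have h2 : min H (ρ / ((n : ℝ) + 1 + 1)) ≤ ρ / ((n : ℝ) + 1 + 1) := min_le_right _ _
      have h4 : 1 - ((((n : ℝ) + 1 + 1) * H) / ρ)⁻¹
          ≤ Real.log ((((n : ℝ) + 1 + 1) * H) / ρ) :=
        Real.one_sub_inv_le_log_of_pos (by positivity)
      have h5 : ((((n : ℝ) + 1 + 1) * H) / ρ)⁻¹ = ρ / (((n : ℝ) + 1 + 1) * H) := by
        rw [inv_div]
      rw [h5] at h4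
      have h6 : ((n : ℝ) + 1) * H + ρ / ((n : ℝ) + 1 + 1)
          ≤ ρ * (1 + (1 - ρ / (((n : ℝ) + 1 + 1) * H))) := by
        have key : ρ * (1 + (1 - ρ / (((n : ℝ) + 1 + 1) * H)))
            - (((n : ℝ) + 1) * H + ρ / ((n : ℝ) + 1 + 1))
            = (ρ - ((n : ℝ) + 1) * H) * (((n : ℝ) + 1 + 1) * H - ρ)
              / (((n : ℝ) + 1 + 1) * H) := by
          field_simp
          ring
        have hpos : 0 ≤ (ρ - ((n : ℝ) + 1) * H) * (((n : ℝ) + 1 + 1) * H - ρ)
              / (((n : ℝ) + 1 + 1) * H) := by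
          apply div_nonneg _ (by positivity)
          exact mul_nonneg (by linarith) (by linarith)
        linarith
      nlinarith [mul_le_mul_of_nonneg_left h4 hρ.le]

theorem mainAREA : S_AREA := by
  intro n m D ρ hD hρ hρ' hp
  have hH : (0 : ℝ) < (m : ℝ) + 1 := by positivity
  refine le_trans ?_ (sum_min_le ((m : ℝ) + 1) hH n ρ hρ hρ')
  have hmap : ∀ p ∈ D, p.1 ∈ Finset.range (n + 1) := by
    intro p hpD
    have := hD hpD
    rw [box, Finset.mem_product] at this
    exact this.1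
  rw [Finset.card_eq_sum_card_fiberwise hmap]
  push_cast
  apply Finset.sum_le_sum
  intro x _
  have hx : (0 : ℝ) < (x : ℝ) + 1 := by positivity
  apply le_min
  · have h1 : (D.filter (fun p => p.1 = x)).card ≤ (Finset.range (m + 1)).card := by
      apply Finset.card_le_card_of_injOn (fun p => p.2)
      · intro p hp1
        have hp2 : p ∈ D := (Finset.mem_filter.mp (Finset.mem_coe.mp hp1)).1
        have := hD hp2
        rw [box, Finset.mem_product] at this
        exact Finset.mem_coe.mpr this.2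
      · intro p hp1 q hq1 hpq
        have e1 := (Finset.mem_filter.mp (Finset.mem_coe.mp hp1)).2
        have e2 := (Finset.mem_filter.mp (Finset.mem_coe.mp hq1)).2
        exact Prod.ext (e1.trans e2.symm) hpq
    rw [Finset.card_range] at h1
    exact_mod_cast h1
  · have h1 : (D.filter (fun p => p.1 = x)).card ≤ (Finset.range ⌊ρ / ((x : ℝ) + 1)⌋₊).card := by
      apply Finset.card_le_card_of_injOn (fun p => p.2)
      · intro p hp1
        have hp2 := Finset.mem_filter.mp (Finset.mem_coe.mp hp1)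
        have h3 := hp p hp2.1
        rw [hp2.2] at h3
        apply Finset.mem_coe.mpr
        rw [Finset.mem_range]
        have h4 : ((p.2 + 1 : ℕ) : ℝ) ≤ ρ / ((x : ℝ) + 1) := by
          rw [le_div_iff₀ hx]
          push_cast
          linarith
        have h5 := Nat.le_floor h4
        show p.2 < ⌊ρ / ((x : ℝ) + 1)⌋₊
        omega
      · intro p hp1 q hq1 hpq
        have e1 := (Finset.mem_filter.mp (Finset.mem_coe.mp hp1)).2
        have e2 := (Finset.mem_filter.mp (Finset.mem_coe.mp hq1)).2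
        exact Prod.ext (e1.trans e2.symm) hpq
    rw [Finset.card_range] at h1
    calc ((D.filter (fun p => p.1 = x)).card : ℝ) ≤ (⌊ρ / ((x : ℝ) + 1)⌋₊ : ℝ) := by
          exact_mod_cast h1
      _ ≤ ρ / ((x : ℝ) + 1) := Nat.floor_le (by positivity)

end Pool.Agent.Y277.PL
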